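import Pool.Agent.S12159

/-!
Every interval of integers with one point removed tiles `ℤ³`.

The case of an interior removed point rests on the theorem `Pool.Agent.S12159.result` of the starting tree
(for all `k, l ≥ 1` the tile `{0..k-1} ∪ {k+1..k+l}` tiles `ℤ³`).
-/

set_option autoImplicit false

namespace Pool.Agent.Results.MP_3bfddb_co.DimensionThree

/-- `S` is a copy of the tile `T ⊂ ℤ` in `ℤ^(n+1)`: the image of `T × {0}^n` under the composition of a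
permutation `π` of the coordinates, sign changes `s` and a translation `w`. -/
def IsCopy (n : ℕ) (T : Set ℤ) (S : Set (Fin (n + 1) → ℤ)) : Prop :=
  ∃ (π : Equiv.Perm (Fin (n + 1))) (s w : Fin (n + 1) → ℤ), (∀ m, s m = 1 ∨ s m = -1) ∧
    S = (fun v : Fin (n + 1) → ℤ => fun m => s m * v (π m) + w m) ''
      {v | v 0 ∈ T ∧ ∀ m, m ≠ 0 → v m = 0}

/-- `T` tiles `ℤ^(n+1)`: there is a family of copies of `T` such that every point lies in exactly one of them. -/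
def Tiles (n : ℕ) (T : Set ℤ) : Prop :=
  ∃ F : Set (Set (Fin (n + 1) → ℤ)), (∀ S ∈ F, IsCopy n T S) ∧ ∀ x, ∃! S, S ∈ F ∧ x ∈ S

/-- the copy given by a base point, a sign and a direction -/
def cp (T : Set ℤ) (c : (Fin 3 → ℤ) × ℤ × Fin 3) : Set (Fin 3 → ℤ) :=
  {x | ∃ t ∈ T, x = c.1 + (c.2.1 * t) • (Pi.single c.2.2 (1 : ℤ) : Fin 3 → ℤ)}

theorem isCopy_cp (T : Set ℤ) (c : (Fin 3 → ℤ) × ℤ × Fin 3) (hc : c.2.1 = 1 ∨ c.2.1 = -1) :
    IsCopy 2 T (cp T c) := by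
  obtain ⟨p, e, i⟩ := c
  simp only at hc
  refine ⟨Equiv.swap 0 i, fun _ => e, p, fun _ => hc, ?_⟩
  ext x
  simp only [cp, Set.mem_ofPred_eq, Set.mem_image]
  constructor
  · rintro ⟨t, ht, rfl⟩
    refine ⟨t • (Pi.single 0 (1 : ℤ) : Fin 3 → ℤ), ⟨by simpa using ht, ?_⟩, ?_⟩
    · intro m hm; simp [hm]
    · funext m
      by_cases hm : m = i
      · subst hm; simp [add_comm]
      · have : Equiv.swap 0 i m ≠ 0 := by
          intro h
          apply hm
          have := congrArg (Equiv.swap (0 : Fin 3) i) h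
          simpa using this
        simp [this, hm]
  · rintro ⟨v, ⟨hv, hv0⟩, rfl⟩
    refine ⟨v 0, hv, ?_⟩
    funext m
    by_cases hm : m = i
    · subst hm; simp [add_comm]
    · have : Equiv.swap 0 i m ≠ 0 := by
        intro h
        apply hm
        have := congrArg (Equiv.swap (0 : Fin 3) i) h
        simpa using this
      simp [hv0 _ this, hm]

theorem tiles_of_unique (T : Set ℤ) (C : Set ((Fin 3 → ℤ) × ℤ × Fin 3))
    (h1 : ∀ c ∈ C, c.2.1 = 1 ∨ c.2.1 = -1) (h2 : ∀ x, ∃! c, c ∈ C ∧ x ∈ cp T c) : Tiles 2 T := by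
  refine ⟨{S | ∃ c ∈ C, S = cp T c}, ?_, ?_⟩
  · rintro S ⟨c, hc, rfl⟩
    exact isCopy_cp T c (h1 c hc)
  · intro x
    obtain ⟨c, ⟨hc, hx⟩, hu⟩ := h2 x
    refine ⟨cp T c, ⟨⟨c, hc, rfl⟩, hx⟩, ?_⟩
    rintro S ⟨⟨c', hc', rfl⟩, hx'⟩
    rw [hu c' ⟨hc', hx'⟩]

/-- the case of an interior removed point -/
theorem tiles_interior (a b c : ℤ) (h1 : a < c) (h2 : c < b) : Tiles 2 (Set.Icc a b \ {c}) := by
  obtain ⟨C, hC1, hC2⟩ := Pool.Agent.S12159.result (c - a).toNat (b - c).toNat (by omega) (by omega)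
  refine tiles_of_unique _ ((fun q : (Fin 3 → ℤ) × ℤ × Fin 3 =>
    (q.1 - (q.2.1 * a) • (Pi.single q.2.2 (1 : ℤ) : Fin 3 → ℤ), q.2)) '' C) ?_ ?_
  · rintro q ⟨q', hq', rfl⟩
    exact hC1 q' hq'
  · have key : ∀ (x : Fin 3 → ℤ) (q : (Fin 3 → ℤ) × ℤ × Fin 3),
        (x ∈ cp (Set.Icc a b \ {c}) (q.1 - (q.2.1 * a) • (Pi.single q.2.2 (1 : ℤ) : Fin 3 → ℤ), q.2)) ↔
        ∃ i : ℤ, ((0 ≤ i ∧ i < ((c - a).toNat : ℤ)) ∨
          (((c - a).toNat : ℤ) < i ∧ i ≤ ((c - a).toNat : ℤ) + ((b - c).toNat : ℤ))) ∧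
            x = q.1 + (q.2.1 * i) • (Pi.single q.2.2 (1 : ℤ) : Fin 3 → ℤ) := by
      intro x q
      simp only [cp, Set.mem_ofPred_eq]
      constructor
      · rintro ⟨t, ⟨⟨ht1, ht2⟩, ht3⟩, rfl⟩
        have ht3' : t ≠ c := by simpa using ht3
        refine ⟨t - a, by omega, ?_⟩
        rw [mul_sub, sub_smul]; abel
      · rintro ⟨i, hi, rfl⟩
        refine ⟨i + a, ⟨⟨by omega, by omega⟩, ?_⟩, ?_⟩
        · simp only [Set.mem_singleton_iff]; omega
        · rw [mul_add, add_smul]; abel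
    intro x
    obtain ⟨q, ⟨hq, hx⟩, hu⟩ := hC2 x
    refine ⟨_, ⟨⟨q, hq, rfl⟩, (key x q).2 hx⟩, ?_⟩
    rintro q'' ⟨⟨q', hq', rfl⟩, hx'⟩
    rw [hu q' ⟨hq', (key x q').1 hx'⟩]

/-- an interval of length `m ≥ 1` tiles -/
theorem tiles_interval (T : Set ℤ) (a m : ℤ) (hm : 1 ≤ m) (hT : ∀ t, t ∈ T ↔ a ≤ t ∧ t < a + m) :
    Tiles 2 T := by
  refine tiles_of_unique T {q | q.2.1 = 1 ∧ q.2.2 = 0 ∧ q.1 0 % m = 0} ?_ ?_
  · intro q hq; exact Or.inl hq.1
  · intro x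
    have hmod : 0 ≤ (x 0 - a) % m := Int.emod_nonneg _ (by omega)
    have hmod2 : (x 0 - a) % m < m := Int.emod_lt_of_pos _ (by omega)
    have hdm := Int.emod_add_mul_ediv (x 0 - a) m
    refine ⟨(x - (a + (x 0 - a) % m) • (Pi.single 0 (1 : ℤ) : Fin 3 → ℤ), 1, 0), ⟨⟨rfl, rfl, ?_⟩, ?_⟩, ?_⟩
    · have : (x - (a + (x 0 - a) % m) • (Pi.single 0 (1 : ℤ) : Fin 3 → ℤ)) 0 = m * ((x 0 - a) / m) := by
        simp; linarith
      show (x - (a + (x 0 - a) % m) • (Pi.single 0 (1 : ℤ) : Fin 3 → ℤ)) 0 % m = 0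
      rw [this]; simp
    · refine ⟨a + (x 0 - a) % m, (hT _).2 ⟨by omega, by omega⟩, ?_⟩
      simp
    · rintro ⟨p, e, i⟩ ⟨⟨he, hi, hp⟩, t, ht, hx⟩
      simp only at he hi hp hx
      subst he; subst hi
      rw [hT] at ht
      have h0 : x 0 = p 0 + t := by rw [hx]; simp
      obtain ⟨k, hk⟩ := Int.dvd_of_emod_eq_zero hp
      have h3 : (x 0 - a) % m = t - a := by
        rw [h0, hk, show m * k + t - a = (t - a) + m * k by ring, Int.add_mul_emod_self_left]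
        exact Int.emod_eq_of_lt (by omega) (by omega)
      rw [h3]
      refine Prod.ext ?_ rfl
      show p = x - (a + (t - a)) • (Pi.single 0 (1 : ℤ) : Fin 3 → ℤ)
      rw [hx]
      funext m'
      simp

end Pool.Agent.Results.MP_3bfddb_co.DimensionThree

open Pool.Agent.Results.MP_3bfddb_co.DimensionThree in
/-- There is a dimension `d ≥ 1` such that every interval of integers with one point removed
(`{a,...,b}` without `c`, where `a ≤ c ≤ b` and `a < b`, so that the tile is not empty) tiles `ℤ^d`; indeed `d = 3`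
works (here `d = n + 1`). -/
theorem Pool.Agent.Results.MP_3bfddb_co.DimensionThree.result :
    ∃ n : ℕ, n + 1 = 3 ∧ ∀ a b c : ℤ, a ≤ c → c ≤ b → a < b → Tiles n (Set.Icc a b \ {c}) := by
  refine ⟨2, rfl, ?_⟩
  intro a b c hac hcb hab
  rcases eq_or_lt_of_le hac with h | h
  · refine tiles_interval _ (a + 1) (b - a) (by omega) ?_
    intro t
    simp only [Set.mem_sdiff, Set.mem_Icc, Set.mem_singleton_iff]
    omega
  · rcases eq_or_lt_of_le hcb with h' | h'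
    · refine tiles_interval _ a (b - a) (by omega) ?_
      intro t
      simp only [Set.mem_sdiff, Set.mem_Icc, Set.mem_singleton_iff]
      omega
    · exact tiles_interior a b c h h'
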